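import Pool.Agent.Lib_helper1.C7.Tab

set_option maxRecDepth 100000

namespace Pool.Agent.Lib_helper1.C7

open Pool.Agent.Lib_helper1.V

theorem t30 : blkB P Ed 4921 27 8 974 = true := by decide +kernel

end Pool.Agent.Lib_helper1.C7
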