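import Pool.Agent.Lib_helper1.VecMain
import Pool.Agent.Lib_helper1.C7.K000
import Pool.Agent.Lib_helper1.C7.K001
import Pool.Agent.Lib_helper1.C7.K002
import Pool.Agent.Lib_helper1.C7.K003
import Pool.Agent.Lib_helper1.C7.K004
import Pool.Agent.Lib_helper1.C7.K005
import Pool.Agent.Lib_helper1.C7.K006
import Pool.Agent.Lib_helper1.C7.K007
import Pool.Agent.Lib_helper1.C7.K008
import Pool.Agent.Lib_helper1.C7.K009
import Pool.Agent.Lib_helper1.C7.K010
import Pool.Agent.Lib_helper1.C7.K011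
import Pool.Agent.Lib_helper1.C7.K012
import Pool.Agent.Lib_helper1.C7.K013
import Pool.Agent.Lib_helper1.C7.K014
import Pool.Agent.Lib_helper1.C7.K015
import Pool.Agent.Lib_helper1.C7.K016
import Pool.Agent.Lib_helper1.C7.K017
import Pool.Agent.Lib_helper1.C7.K018
import Pool.Agent.Lib_helper1.C7.K019
import Pool.Agent.Lib_helper1.C7.K020
import Pool.Agent.Lib_helper1.C7.K021
import Pool.Agent.Lib_helper1.C7.K022
import Pool.Agent.Lib_helper1.C7.K023
import Pool.Agent.Lib_helper1.C7.K024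
import Pool.Agent.Lib_helper1.C7.K025
import Pool.Agent.Lib_helper1.C7.K026
import Pool.Agent.Lib_helper1.C7.K027
import Pool.Agent.Lib_helper1.C7.K028
import Pool.Agent.Lib_helper1.C7.K029
import Pool.Agent.Lib_helper1.C7.K030
import Pool.Agent.Lib_helper1.C7.K031
import Pool.Agent.Lib_helper1.C7.K032
import Pool.Agent.Lib_helper1.C7.K033
import Pool.Agent.Lib_helper1.C7.K034
import Pool.Agent.Lib_helper1.C7.K035
import Pool.Agent.Lib_helper1.C7.K036
import Pool.Agent.Lib_helper1.C7.K037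
import Pool.Agent.Lib_helper1.C7.K038
import Pool.Agent.Lib_helper1.C7.K039
import Pool.Agent.Lib_helper1.C7.K040
import Pool.Agent.Lib_helper1.C7.K041
import Pool.Agent.Lib_helper1.C7.K042
import Pool.Agent.Lib_helper1.C7.K043
import Pool.Agent.Lib_helper1.C7.K044
import Pool.Agent.Lib_helper1.C7.K045
import Pool.Agent.Lib_helper1.C7.K046
import Pool.Agent.Lib_helper1.C7.K047
import Pool.Agent.Lib_helper1.C7.K048
import Pool.Agent.Lib_helper1.C7.K049
import Pool.Agent.Lib_helper1.C7.K050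
import Pool.Agent.Lib_helper1.C7.K051
import Pool.Agent.Lib_helper1.C7.K052
import Pool.Agent.Lib_helper1.C7.K053
import Pool.Agent.Lib_helper1.C7.K054
import Pool.Agent.Lib_helper1.C7.K055
import Pool.Agent.Lib_helper1.C7.K056
import Pool.Agent.Lib_helper1.C7.K057
import Pool.Agent.Lib_helper1.C7.K058
import Pool.Agent.Lib_helper1.C7.K059
import Pool.Agent.Lib_helper1.C7.K060
import Pool.Agent.Lib_helper1.C7.K061
import Pool.Agent.Lib_helper1.C7.K062
import Pool.Agent.Lib_helper1.C7.K063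
import Pool.Agent.Lib_helper1.C7.K064
import Pool.Agent.Lib_helper1.C7.K065
import Pool.Agent.Lib_helper1.C7.K066
import Pool.Agent.Lib_helper1.C7.K067
import Pool.Agent.Lib_helper1.C7.K068
import Pool.Agent.Lib_helper1.C7.K069
import Pool.Agent.Lib_helper1.C7.K070
import Pool.Agent.Lib_helper1.C7.K071
import Pool.Agent.Lib_helper1.C7.K072
import Pool.Agent.Lib_helper1.C7.K073
import Pool.Agent.Lib_helper1.C7.K074
import Pool.Agent.Lib_helper1.C7.K075
import Pool.Agent.Lib_helper1.C7.K076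
import Pool.Agent.Lib_helper1.C7.K077
import Pool.Agent.Lib_helper1.C7.K078
import Pool.Agent.Lib_helper1.C7.K079
import Pool.Agent.Lib_helper1.C7.K080
import Pool.Agent.Lib_helper1.C7.K081
import Pool.Agent.Lib_helper1.C7.K082
import Pool.Agent.Lib_helper1.C7.K083
import Pool.Agent.Lib_helper1.C7.K084
import Pool.Agent.Lib_helper1.C7.K085
import Pool.Agent.Lib_helper1.C7.K086
import Pool.Agent.Lib_helper1.C7.K087
import Pool.Agent.Lib_helper1.C7.K088
import Pool.Agent.Lib_helper1.C7.K089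
import Pool.Agent.Lib_helper1.C7.K090
import Pool.Agent.Lib_helper1.C7.K091
import Pool.Agent.Lib_helper1.C7.K092
import Pool.Agent.Lib_helper1.C7.K093
import Pool.Agent.Lib_helper1.C7.K094
import Pool.Agent.Lib_helper1.C7.K095
import Pool.Agent.Lib_helper1.C7.K096
import Pool.Agent.Lib_helper1.C7.K097
import Pool.Agent.Lib_helper1.C7.K098
import Pool.Agent.Lib_helper1.C7.K099
import Pool.Agent.Lib_helper1.C7.K100
import Pool.Agent.Lib_helper1.C7.K101
import Pool.Agent.Lib_helper1.C7.K102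
import Pool.Agent.Lib_helper1.C7.K103
import Pool.Agent.Lib_helper1.C7.K104
import Pool.Agent.Lib_helper1.C7.K105
import Pool.Agent.Lib_helper1.C7.K106
import Pool.Agent.Lib_helper1.C7.K107
import Pool.Agent.Lib_helper1.C7.K108
import Pool.Agent.Lib_helper1.C7.K109
import Pool.Agent.Lib_helper1.C7.K110
import Pool.Agent.Lib_helper1.C7.K111
import Pool.Agent.Lib_helper1.C7.K112
import Pool.Agent.Lib_helper1.C7.K113
import Pool.Agent.Lib_helper1.C7.K114
import Pool.Agent.Lib_helper1.C7.K115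
import Pool.Agent.Lib_helper1.C7.K116
import Pool.Agent.Lib_helper1.C7.K117
import Pool.Agent.Lib_helper1.C7.K118
import Pool.Agent.Lib_helper1.C7.K119
import Pool.Agent.Lib_helper1.C7.K120
import Pool.Agent.Lib_helper1.C7.K121
import Pool.Agent.Lib_helper1.C7.K122
import Pool.Agent.Lib_helper1.C7.K123
import Pool.Agent.Lib_helper1.C7.K124
import Pool.Agent.Lib_helper1.C7.K125
import Pool.Agent.Lib_helper1.C7.K126
import Pool.Agent.Lib_helper1.C7.K127
import Pool.Agent.Lib_helper1.C7.K128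
import Pool.Agent.Lib_helper1.C7.K129
import Pool.Agent.Lib_helper1.C7.K130
import Pool.Agent.Lib_helper1.C7.K131
import Pool.Agent.Lib_helper1.C7.K132
import Pool.Agent.Lib_helper1.C7.K133
import Pool.Agent.Lib_helper1.C7.K134
import Pool.Agent.Lib_helper1.C7.K135
import Pool.Agent.Lib_helper1.C7.K136
import Pool.Agent.Lib_helper1.C7.K137
import Pool.Agent.Lib_helper1.C7.K138
import Pool.Agent.Lib_helper1.C7.K139
import Pool.Agent.Lib_helper1.C7.K140
import Pool.Agent.Lib_helper1.C7.K141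
import Pool.Agent.Lib_helper1.C7.K142
import Pool.Agent.Lib_helper1.C7.K143
import Pool.Agent.Lib_helper1.C7.K144
import Pool.Agent.Lib_helper1.C7.K145
import Pool.Agent.Lib_helper1.C7.K146
import Pool.Agent.Lib_helper1.C7.K147
import Pool.Agent.Lib_helper1.C7.K148
import Pool.Agent.Lib_helper1.C7.K149
import Pool.Agent.Lib_helper1.C7.K150
import Pool.Agent.Lib_helper1.C7.K151
import Pool.Agent.Lib_helper1.C7.K152
import Pool.Agent.Lib_helper1.C7.K153
import Pool.Agent.Lib_helper1.C7.K154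
import Pool.Agent.Lib_helper1.C7.K155
import Pool.Agent.Lib_helper1.C7.K156
import Pool.Agent.Lib_helper1.C7.K157
import Pool.Agent.Lib_helper1.C7.K158
import Pool.Agent.Lib_helper1.C7.K159
import Pool.Agent.Lib_helper1.C7.K160
import Pool.Agent.Lib_helper1.C7.K161
import Pool.Agent.Lib_helper1.C7.K162
import Pool.Agent.Lib_helper1.C7.K163
import Pool.Agent.Lib_helper1.C7.K164
import Pool.Agent.Lib_helper1.C7.K165
import Pool.Agent.Lib_helper1.C7.K166
import Pool.Agent.Lib_helper1.C7.K167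
import Pool.Agent.Lib_helper1.C7.K168
import Pool.Agent.Lib_helper1.C7.K169
import Pool.Agent.Lib_helper1.C7.K170
import Pool.Agent.Lib_helper1.C7.K171
import Pool.Agent.Lib_helper1.C7.K172
import Pool.Agent.Lib_helper1.C7.K173
import Pool.Agent.Lib_helper1.C7.K174
import Pool.Agent.Lib_helper1.C7.K175
import Pool.Agent.Lib_helper1.C7.K176
import Pool.Agent.Lib_helper1.C7.K177
import Pool.Agent.Lib_helper1.C7.K178
import Pool.Agent.Lib_helper1.C7.K179
import Pool.Agent.Lib_helper1.C7.K180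
import Pool.Agent.Lib_helper1.C7.K181
import Pool.Agent.Lib_helper1.C7.K182
import Pool.Agent.Lib_helper1.C7.K183
import Pool.Agent.Lib_helper1.C7.K184
import Pool.Agent.Lib_helper1.C7.K185
import Pool.Agent.Lib_helper1.C7.K186
import Pool.Agent.Lib_helper1.C7.K187
import Pool.Agent.Lib_helper1.C7.K188
import Pool.Agent.Lib_helper1.C7.K189
import Pool.Agent.Lib_helper1.C7.K190
import Pool.Agent.Lib_helper1.C7.K191
import Pool.Agent.Lib_helper1.C7.K192
import Pool.Agent.Lib_helper1.C7.K193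
import Pool.Agent.Lib_helper1.C7.K194
import Pool.Agent.Lib_helper1.C7.K195
import Pool.Agent.Lib_helper1.C7.K196
import Pool.Agent.Lib_helper1.C7.K197
import Pool.Agent.Lib_helper1.C7.K198
import Pool.Agent.Lib_helper1.C7.K199
import Pool.Agent.Lib_helper1.C7.K200
import Pool.Agent.Lib_helper1.C7.K201
import Pool.Agent.Lib_helper1.C7.K202
import Pool.Agent.Lib_helper1.C7.K203
import Pool.Agent.Lib_helper1.C7.K204
import Pool.Agent.Lib_helper1.C7.K205
import Pool.Agent.Lib_helper1.C7.K206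
import Pool.Agent.Lib_helper1.C7.K207
import Pool.Agent.Lib_helper1.C7.K208
import Pool.Agent.Lib_helper1.C7.K209
import Pool.Agent.Lib_helper1.C7.K210
import Pool.Agent.Lib_helper1.C7.K211
import Pool.Agent.Lib_helper1.C7.K212
import Pool.Agent.Lib_helper1.C7.K213
import Pool.Agent.Lib_helper1.C7.K214
import Pool.Agent.Lib_helper1.C7.K215
import Pool.Agent.Lib_helper1.C7.K216
import Pool.Agent.Lib_helper1.C7.K217
import Pool.Agent.Lib_helper1.C7.K218
import Pool.Agent.Lib_helper1.C7.K219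
import Pool.Agent.Lib_helper1.C7.K220
import Pool.Agent.Lib_helper1.C7.K221
import Pool.Agent.Lib_helper1.C7.K222
import Pool.Agent.Lib_helper1.C7.K223
import Pool.Agent.Lib_helper1.C7.K224
import Pool.Agent.Lib_helper1.C7.K225
import Pool.Agent.Lib_helper1.C7.K226
import Pool.Agent.Lib_helper1.C7.K227
import Pool.Agent.Lib_helper1.C7.K228
import Pool.Agent.Lib_helper1.C7.K229
import Pool.Agent.Lib_helper1.C7.K230
import Pool.Agent.Lib_helper1.C7.K231
import Pool.Agent.Lib_helper1.C7.K232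
import Pool.Agent.Lib_helper1.C7.K233
import Pool.Agent.Lib_helper1.C7.K234
import Pool.Agent.Lib_helper1.C7.K235
import Pool.Agent.Lib_helper1.C7.K236
import Pool.Agent.Lib_helper1.C7.K237
import Pool.Agent.Lib_helper1.C7.K238
import Pool.Agent.Lib_helper1.C7.K239
import Pool.Agent.Lib_helper1.C7.K240
import Pool.Agent.Lib_helper1.C7.K241
import Pool.Agent.Lib_helper1.C7.K242

set_option maxRecDepth 100000

namespace Pool.Agent.Lib_helper1.C7

open Pool.Agent.Lib_helper1.V Pool.Agent.Lib_helper2.Collatz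

/-- the parameters of the certificate: `g = 4627 / 5000`, growth `100568 / 100000` per digit -/
def K : Cert :=
  { k := 17, q := 16, u := 4627, v := 5000, A := 18169, B := 49934, C := 94836, D := 65536, P1 := 100568, P2 := 100000 }

theorem good1 : Good1 P where
  hs := by decide +kernel
  hj := by decide +kernel
  hL := by decide +kernel
  heb := by decide +kernel
  hcw := by decide +kernel
  hsh := by decide +kernel
  hA := by decide +kernel
  hC := by decide +kernel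
  hB := by decide +kernel

theorem good2 : Good2 P where
  hxa := by decide +kernel
  hxb1 := by decide +kernel
  heb1 := by decide +kernel
  hfa := by decide +kernel
  hef := by decide +kernel
  hKR1 := by decide +kernel
  hKR2 := by decide +kernel
  hsa := by decide +kernel
  hsb3 := by decide +kernel
  hF := by decide +kernel
  hF3 := by decide +kernel
  hKs := by decide +kernel

/-- first members of the blocks -/
def starts : List ℕ := [2, 17093, 7940, 11909, 9317, 164, 4133, 1541, 12071, 16040, 13448, 4295, 8264, 5672, 16202, 488, 17579, 8426, 12395, 9803, 650, 4619, 2027, 12557, 16526, 13934, 4781, 8750, 6158, 16688, 974, 18065, 8912, 12881, 10289, 1136, 5105, 2513, 13043, 17012, 14420, 5267, 9236, 6644, 17174, 1460, 18551, 9398, 13367, 10775, 1622, 5591, 2999, 13529, 17498, 14906, 5753, 9722, 7130, 17660, 1946, 19037, 9884, 13853, 11261, 2108, 6077, 3485, 14015, 17984, 15392, 6239, 10208, 7616, 18146,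 2432, 19523, 10370, 14339, 11747, 2594, 6563, 3971, 14501, 18470, 15878, 6725, 10694, 8102, 18632, 2918, 326, 10856, 14825, 12233, 3080, 7049, 4457, 14987, 18956, 16364, 7211, 11180, 8588, 19118, 3404, 812, 11342, 15311, 12719, 3566, 7535, 4943, 15473, 19442, 16850, 7697, 11666, 9074, 19604, 3890, 1298, 11828, 15797, 13205, 4052, 8021, 5429, 15959, 245, 17336, 8183, 12152, 9560, 407, 4376, 1784, 12314, 16283, 13691, 4538, 8507, 5915, 16445, 731, 17822, 8669, 12638, 10046, 893, 4862, 2270, 12800, 16769, 14177, 5024, 8993, 6401, 16931, 1217, 18308, 9155, 13124, 10532, 1379, 5348, 2756, 13286, 17255, 14663, 5510, 9479, 6887, 17417, 1703, 18794, 9641, 13610, 11018, 1865, 5834, 3242, 13772, 17741, 15149, 5996, 9965, 7373, 17903, 2189, 19280, 10127, 14096, 11504, 2351, 6320, 3728, 14258, 18227, 15635, 6482, 10451, 7859, 18389, 2675, 83, 10613, 14582, 11990, 2837, 6806, 4214, 14744, 18713, 16121, 6968, 10937, 8345,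 18875, 3161, 569, 11099, 15068, 12476, 3323, 7292, 4700, 15230, 19199, 16607, 7454, 11423, 8831, 19361, 3647, 1055, 11585, 15554, 12962, 3809, 7778, 5186, 15716]

theorem checked : Checked P Ed 4921 27 8 starts where
  g1 := good1
  g2 := good2
  hinv := by decide +kernel
  hcov := by decide +kernel
  hblk := List.forall_mem_cons.2 ⟨t0, List.forall_mem_cons.2 ⟨t1, List.forall_mem_cons.2 ⟨t2, List.forall_mem_cons.2 ⟨t3, 
    List.forall_mem_cons.2 ⟨t4, List.forall_mem_cons.2 ⟨t5, List.forall_mem_cons.2 ⟨t6, List.forall_mem_cons.2 ⟨t7, 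
    List.forall_mem_cons.2 ⟨t8, List.forall_mem_cons.2 ⟨t9, List.forall_mem_cons.2 ⟨t10, List.forall_mem_cons.2 ⟨t11, 
    List.forall_mem_cons.2 ⟨t12, List.forall_mem_cons.2 ⟨t13, List.forall_mem_cons.2 ⟨t14, List.forall_mem_cons.2 ⟨t15, 
    List.forall_mem_cons.2 ⟨t16, List.forall_mem_cons.2 ⟨t17, List.forall_mem_cons.2 ⟨t18, List.forall_mem_cons.2 ⟨t19, 
    List.forall_mem_cons.2 ⟨t20, List.forall_mem_cons.2 ⟨t21, List.forall_mem_cons.2 ⟨t22, List.forall_mem_cons.2 ⟨t23, 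
    List.forall_mem_cons.2 ⟨t24, List.forall_mem_cons.2 ⟨t25, List.forall_mem_cons.2 ⟨t26, List.forall_mem_cons.2 ⟨t27, 
    List.forall_mem_cons.2 ⟨t28, List.forall_mem_cons.2 ⟨t29, List.forall_mem_cons.2 ⟨t30, List.forall_mem_cons.2 ⟨t31, 
    List.forall_mem_cons.2 ⟨t32, List.forall_mem_cons.2 ⟨t33, List.forall_mem_cons.2 ⟨t34, List.forall_mem_cons.2 ⟨t35, 
    List.forall_mem_cons.2 ⟨t36, List.forall_mem_cons.2 ⟨t37, List.forall_mem_cons.2 ⟨t38, List.forall_mem_cons.2 ⟨t39, 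
    List.forall_mem_cons.2 ⟨t40, List.forall_mem_cons.2 ⟨t41, List.forall_mem_cons.2 ⟨t42, List.forall_mem_cons.2 ⟨t43, 
    List.forall_mem_cons.2 ⟨t44, List.forall_mem_cons.2 ⟨t45, List.forall_mem_cons.2 ⟨t46, List.forall_mem_cons.2 ⟨t47, 
    List.forall_mem_cons.2 ⟨t48, List.forall_mem_cons.2 ⟨t49, List.forall_mem_cons.2 ⟨t50, List.forall_mem_cons.2 ⟨t51, 
    List.forall_mem_cons.2 ⟨t52, List.forall_mem_cons.2 ⟨t53, List.forall_mem_cons.2 ⟨t54, List.forall_mem_cons.2 ⟨t55, 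
    List.forall_mem_cons.2 ⟨t56, List.forall_mem_cons.2 ⟨t57, List.forall_mem_cons.2 ⟨t58, List.forall_mem_cons.2 ⟨t59, 
    List.forall_mem_cons.2 ⟨t60, List.forall_mem_cons.2 ⟨t61, List.forall_mem_cons.2 ⟨t62, List.forall_mem_cons.2 ⟨t63, 
    List.forall_mem_cons.2 ⟨t64, List.forall_mem_cons.2 ⟨t65, List.forall_mem_cons.2 ⟨t66, List.forall_mem_cons.2 ⟨t67, 
    List.forall_mem_cons.2 ⟨t68, List.forall_mem_cons.2 ⟨t69, List.forall_mem_cons.2 ⟨t70, List.forall_mem_cons.2 ⟨t71, 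
    List.forall_mem_cons.2 ⟨t72, List.forall_mem_cons.2 ⟨t73, List.forall_mem_cons.2 ⟨t74, List.forall_mem_cons.2 ⟨t75, 
    List.forall_mem_cons.2 ⟨t76, List.forall_mem_cons.2 ⟨t77, List.forall_mem_cons.2 ⟨t78, List.forall_mem_cons.2 ⟨t79, 
    List.forall_mem_cons.2 ⟨t80, List.forall_mem_cons.2 ⟨t81, List.forall_mem_cons.2 ⟨t82, List.forall_mem_cons.2 ⟨t83, 
    List.forall_mem_cons.2 ⟨t84, List.forall_mem_cons.2 ⟨t85, List.forall_mem_cons.2 ⟨t86, List.forall_mem_cons.2 ⟨t87, 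
    List.forall_mem_cons.2 ⟨t88, List.forall_mem_cons.2 ⟨t89, List.forall_mem_cons.2 ⟨t90, List.forall_mem_cons.2 ⟨t91, 
    List.forall_mem_cons.2 ⟨t92, List.forall_mem_cons.2 ⟨t93, List.forall_mem_cons.2 ⟨t94, List.forall_mem_cons.2 ⟨t95, 
    List.forall_mem_cons.2 ⟨t96, List.forall_mem_cons.2 ⟨t97, List.forall_mem_cons.2 ⟨t98, List.forall_mem_cons.2 ⟨t99, 
    List.forall_mem_cons.2 ⟨t100, List.forall_mem_cons.2 ⟨t101, List.forall_mem_cons.2 ⟨t102, List.forall_mem_cons.2 ⟨t103, 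
    List.forall_mem_cons.2 ⟨t104, List.forall_mem_cons.2 ⟨t105, List.forall_mem_cons.2 ⟨t106, List.forall_mem_cons.2 ⟨t107, 
    List.forall_mem_cons.2 ⟨t108, List.forall_mem_cons.2 ⟨t109, List.forall_mem_cons.2 ⟨t110, List.forall_mem_cons.2 ⟨t111, 
    List.forall_mem_cons.2 ⟨t112, List.forall_mem_cons.2 ⟨t113, List.forall_mem_cons.2 ⟨t114, List.forall_mem_cons.2 ⟨t115, 
    List.forall_mem_cons.2 ⟨t116, List.forall_mem_cons.2 ⟨t117, List.forall_mem_cons.2 ⟨t118, List.forall_mem_cons.2 ⟨t119, 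
    List.forall_mem_cons.2 ⟨t120, List.forall_mem_cons.2 ⟨t121, List.forall_mem_cons.2 ⟨t122, List.forall_mem_cons.2 ⟨t123, 
    List.forall_mem_cons.2 ⟨t124, List.forall_mem_cons.2 ⟨t125, List.forall_mem_cons.2 ⟨t126, List.forall_mem_cons.2 ⟨t127, 
    List.forall_mem_cons.2 ⟨t128, List.forall_mem_cons.2 ⟨t129, List.forall_mem_cons.2 ⟨t130, List.forall_mem_cons.2 ⟨t131, 
    List.forall_mem_cons.2 ⟨t132, List.forall_mem_cons.2 ⟨t133, List.forall_mem_cons.2 ⟨t134, List.forall_mem_cons.2 ⟨t135, 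
    List.forall_mem_cons.2 ⟨t136, List.forall_mem_cons.2 ⟨t137, List.forall_mem_cons.2 ⟨t138, List.forall_mem_cons.2 ⟨t139, 
    List.forall_mem_cons.2 ⟨t140, List.forall_mem_cons.2 ⟨t141, List.forall_mem_cons.2 ⟨t142, List.forall_mem_cons.2 ⟨t143, 
    List.forall_mem_cons.2 ⟨t144, List.forall_mem_cons.2 ⟨t145, List.forall_mem_cons.2 ⟨t146, List.forall_mem_cons.2 ⟨t147, 
    List.forall_mem_cons.2 ⟨t148, List.forall_mem_cons.2 ⟨t149, List.forall_mem_cons.2 ⟨t150, List.forall_mem_cons.2 ⟨t151, 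
    List.forall_mem_cons.2 ⟨t152, List.forall_mem_cons.2 ⟨t153, List.forall_mem_cons.2 ⟨t154, List.forall_mem_cons.2 ⟨t155, 
    List.forall_mem_cons.2 ⟨t156, List.forall_mem_cons.2 ⟨t157, List.forall_mem_cons.2 ⟨t158, List.forall_mem_cons.2 ⟨t159, 
    List.forall_mem_cons.2 ⟨t160, List.forall_mem_cons.2 ⟨t161, List.forall_mem_cons.2 ⟨t162, List.forall_mem_cons.2 ⟨t163, 
    List.forall_mem_cons.2 ⟨t164, List.forall_mem_cons.2 ⟨t165, List.forall_mem_cons.2 ⟨t166, List.forall_mem_cons.2 ⟨t167, 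
    List.forall_mem_cons.2 ⟨t168, List.forall_mem_cons.2 ⟨t169, List.forall_mem_cons.2 ⟨t170, List.forall_mem_cons.2 ⟨t171, 
    List.forall_mem_cons.2 ⟨t172, List.forall_mem_cons.2 ⟨t173, List.forall_mem_cons.2 ⟨t174, List.forall_mem_cons.2 ⟨t175, 
    List.forall_mem_cons.2 ⟨t176, List.forall_mem_cons.2 ⟨t177, List.forall_mem_cons.2 ⟨t178, List.forall_mem_cons.2 ⟨t179, 
    List.forall_mem_cons.2 ⟨t180, List.forall_mem_cons.2 ⟨t181, List.forall_mem_cons.2 ⟨t182, List.forall_mem_cons.2 ⟨t183, 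
    List.forall_mem_cons.2 ⟨t184, List.forall_mem_cons.2 ⟨t185, List.forall_mem_cons.2 ⟨t186, List.forall_mem_cons.2 ⟨t187, 
    List.forall_mem_cons.2 ⟨t188, List.forall_mem_cons.2 ⟨t189, List.forall_mem_cons.2 ⟨t190, List.forall_mem_cons.2 ⟨t191, 
    List.forall_mem_cons.2 ⟨t192, List.forall_mem_cons.2 ⟨t193, List.forall_mem_cons.2 ⟨t194, List.forall_mem_cons.2 ⟨t195, 
    List.forall_mem_cons.2 ⟨t196, List.forall_mem_cons.2 ⟨t197, List.forall_mem_cons.2 ⟨t198, List.forall_mem_cons.2 ⟨t199, 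
    List.forall_mem_cons.2 ⟨t200, List.forall_mem_cons.2 ⟨t201, List.forall_mem_cons.2 ⟨t202, List.forall_mem_cons.2 ⟨t203, 
    List.forall_mem_cons.2 ⟨t204, List.forall_mem_cons.2 ⟨t205, List.forall_mem_cons.2 ⟨t206, List.forall_mem_cons.2 ⟨t207, 
    List.forall_mem_cons.2 ⟨t208, List.forall_mem_cons.2 ⟨t209, List.forall_mem_cons.2 ⟨t210, List.forall_mem_cons.2 ⟨t211, 
    List.forall_mem_cons.2 ⟨t212, List.forall_mem_cons.2 ⟨t213, List.forall_mem_cons.2 ⟨t214, List.forall_mem_cons.2 ⟨t215, 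
    List.forall_mem_cons.2 ⟨t216, List.forall_mem_cons.2 ⟨t217, List.forall_mem_cons.2 ⟨t218, List.forall_mem_cons.2 ⟨t219, 
    List.forall_mem_cons.2 ⟨t220, List.forall_mem_cons.2 ⟨t221, List.forall_mem_cons.2 ⟨t222, List.forall_mem_cons.2 ⟨t223, 
    List.forall_mem_cons.2 ⟨t224, List.forall_mem_cons.2 ⟨t225, List.forall_mem_cons.2 ⟨t226, List.forall_mem_cons.2 ⟨t227, 
    List.forall_mem_cons.2 ⟨t228, List.forall_mem_cons.2 ⟨t229, List.forall_mem_cons.2 ⟨t230, List.forall_mem_cons.2 ⟨t231, 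
    List.forall_mem_cons.2 ⟨t232, List.forall_mem_cons.2 ⟨t233, List.forall_mem_cons.2 ⟨t234, List.forall_mem_cons.2 ⟨t235, 
    List.forall_mem_cons.2 ⟨t236, List.forall_mem_cons.2 ⟨t237, List.forall_mem_cons.2 ⟨t238, List.forall_mem_cons.2 ⟨t239, 
    List.forall_mem_cons.2 ⟨t240, List.forall_mem_cons.2 ⟨t241, List.forall_mem_cons.2 ⟨t242, List.forall_mem_nil _⟩⟩⟩⟩⟩⟩⟩⟩⟩⟩⟩⟩⟩⟩⟩⟩⟩⟩⟩⟩⟩⟩⟩⟩⟩⟩⟩⟩⟩⟩⟩⟩⟩⟩⟩⟩⟩⟩⟩⟩⟩⟩⟩⟩⟩⟩⟩⟩⟩⟩⟩⟩⟩⟩⟩⟩⟩⟩⟩⟩⟩⟩⟩⟩⟩⟩⟩⟩⟩⟩⟩⟩⟩⟩⟩⟩⟩⟩⟩⟩⟩⟩⟩⟩⟩⟩⟩⟩⟩⟩⟩⟩⟩⟩⟩⟩⟩⟩⟩⟩⟩⟩⟩⟩⟩⟩⟩⟩⟩⟩⟩⟩⟩⟩⟩⟩⟩⟩⟩⟩⟩⟩⟩⟩⟩⟩⟩⟩⟩⟩⟩⟩⟩⟩⟩⟩⟩⟩⟩⟩⟩⟩⟩⟩⟩⟩⟩⟩⟩⟩⟩⟩⟩⟩⟩⟩⟩⟩⟩⟩⟩⟩⟩⟩⟩⟩⟩⟩⟩⟩⟩⟩⟩⟩⟩⟩⟩⟩⟩⟩⟩⟩⟩⟩⟩⟩⟩⟩⟩⟩⟩⟩⟩⟩⟩⟩⟩⟩⟩⟩⟩⟩⟩⟩⟩⟩⟩⟩⟩⟩⟩⟩⟩⟩⟩⟩⟩⟩⟩⟩⟩⟩⟩⟩⟩⟩⟩⟩⟩⟩⟩⟩⟩⟩⟩⟩⟩⟩⟩⟩⟩⟩⟩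

theorem certOK : CertOK K (cF P Ed (8 + 27)) (eF P Ed) :=
  checked.certOK (by decide +kernel) rfl rfl rfl rfl rfl (by decide +kernel) (by decide +kernel)
    (by decide +kernel) (by decide +kernel) (by decide +kernel) (by decide +kernel)
    (by decide +kernel) (by decide +kernel) (by decide +kernel) (by decide +kernel)

end Pool.Agent.Lib_helper1.C7
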