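import Pool.Agent.Lib_helper1.C7.D000
import Pool.Agent.Lib_helper1.C7.D001
import Pool.Agent.Lib_helper1.C7.D002
import Pool.Agent.Lib_helper1.C7.D003
import Pool.Agent.Lib_helper1.C7.D004
import Pool.Agent.Lib_helper1.C7.D005
import Pool.Agent.Lib_helper1.C7.D006
import Pool.Agent.Lib_helper1.C7.D007
import Pool.Agent.Lib_helper1.C7.D008
import Pool.Agent.Lib_helper1.C7.D009
import Pool.Agent.Lib_helper1.C7.D010
import Pool.Agent.Lib_helper1.C7.D011
import Pool.Agent.Lib_helper1.C7.D012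
import Pool.Agent.Lib_helper1.C7.D013
import Pool.Agent.Lib_helper1.C7.D014
import Pool.Agent.Lib_helper1.C7.D015
import Pool.Agent.Lib_helper1.C7.D016
import Pool.Agent.Lib_helper1.C7.D017
import Pool.Agent.Lib_helper1.C7.D018
import Pool.Agent.Lib_helper1.C7.D019
import Pool.Agent.Lib_helper1.C7.D020
import Pool.Agent.Lib_helper1.C7.D021
import Pool.Agent.Lib_helper1.C7.D022
import Pool.Agent.Lib_helper1.C7.D023
import Pool.Agent.Lib_helper1.C7.D024
import Pool.Agent.Lib_helper1.C7.D025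
import Pool.Agent.Lib_helper1.C7.D026
import Pool.Agent.Lib_helper1.C7.D027
import Pool.Agent.Lib_helper1.C7.D028
import Pool.Agent.Lib_helper1.C7.D029
import Pool.Agent.Lib_helper1.C7.D030
import Pool.Agent.Lib_helper1.C7.D031
import Pool.Agent.Lib_helper1.C7.D032

set_option maxRecDepth 100000

namespace Pool.Agent.Lib_helper1.C7

open Pool.Agent.Lib_helper1.V

noncomputable section

/-- the table, by chunks -/
def Ei (i : Nat) : Nat := (cond (Nat.ble i 728) (cond (Nat.ble i 363) (cond (Nat.ble i 181) (cond (Nat.ble i 90) (cond (Nat.ble i 44) (cond (Nat.ble i 21) (cond (Nat.ble i 10) (cond (Nat.ble i 4) (cond (Nat.ble i 1) (cond (Nat.ble i 0) e0 e1) (cond (Nat.ble i 2) e2 (cond (Nat.ble i 3) e3 e4))) (cond (Nat.ble i 7) (cond (Nat.ble i 5) e5 (cond (Nat.ble i 6) e6 e7)) (cond (Nat.ble i 8) e8 (cond (Nat.ble i 9) e9 e10)))) (cond (Nat.ble i 15) (cond (Nat.ble i 12) (cond (Nat.ble i 11) e11 e12) (cond (Nat.ble i 13) e13 (cond (Nat.ble i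 14) e14 e15))) (cond (Nat.ble i 18) (cond (Nat.ble i 16) e16 (cond (Nat.ble i 17) e17 e18)) (cond (Nat.ble i 19) e19 (cond (Nat.ble i 20) e20 e21))))) (cond (Nat.ble i 32) (cond (Nat.ble i 26) (cond (Nat.ble i 23) (cond (Nat.ble i 22) e22 e23) (cond (Nat.ble i 24) e24 (cond (Nat.ble i 25) e25 e26))) (cond (Nat.ble i 29) (cond (Nat.ble i 27) e27 (cond (Nat.ble i 28) e28 e29)) (cond (Nat.ble i 30) e30 (cond (Nat.ble i 31) e31 e32)))) (cond (Nat.ble i 38) (cond (Nat.ble i 35) (cond (Nat.ble i 33) e33 (cond (Nat.ble i 34) e34 e35)) (cond (Nat.ble i 36) e36 (cond (Nat.ble i 37) e37 e38))) (cond (Nat.ble i 41) (cond (Nat.ble i 39) e39 (cond (Nat.ble i 40) e40 e41)) (cond (Nat.ble i 42) e42 (cond (Nat.ble i 43) e43 e44)))))) (cond (Nat.ble i 67) (cond (Nat.ble i 55) (cond (Nat.ble i 49) (cond (Nat.ble i 46) (cond (Nat.ble i 45) e45 e46) (cond (Nat.ble i 47) e47 (cond (Nat.ble i 48) e48 e49))) (cond (Nat.ble i 52) (cond (Nat.ble i 50) e50 (cond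 (Nat.ble i 51) e51 e52)) (cond (Nat.ble i 53) e53 (cond (Nat.ble i 54) e54 e55)))) (cond (Nat.ble i 61) (cond (Nat.ble i 58) (cond (Nat.ble i 56) e56 (cond (Nat.ble i 57) e57 e58)) (cond (Nat.ble i 59) e59 (cond (Nat.ble i 60) e60 e61))) (cond (Nat.ble i 64) (cond (Nat.ble i 62) e62 (cond (Nat.ble i 63) e63 e64)) (cond (Nat.ble i 65) e65 (cond (Nat.ble i 66) e66 e67))))) (cond (Nat.ble i 78) (cond (Nat.ble i 72) (cond (Nat.ble i 69) (cond (Nat.ble i 68) e68 e69) (cond (Nat.ble i 70) e70 (cond (Nat.ble i 71) e71 e72))) (cond (Nat.ble i 75) (cond (Nat.ble i 73) e73 (cond (Nat.ble i 74) e74 e75)) (cond (Nat.ble i 76) e76 (cond (Nat.ble i 77) e77 e78)))) (cond (Nat.ble i 84) (cond (Nat.ble i 81) (cond (Nat.ble i 79) e79 (cond (Nat.ble i 80) e80 e81)) (cond (Nat.ble i 82) e82 (cond (Nat.ble i 83) e83 e84))) (cond (Nat.ble i 87) (cond (Nat.ble i 85) e85 (cond (Nat.ble i 86) e86 e87)) (cond (Nat.ble i 88) e88 (cond (Nat.ble i 89) e89 e90)))))))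 (cond (Nat.ble i 135) (cond (Nat.ble i 112) (cond (Nat.ble i 101) (cond (Nat.ble i 95) (cond (Nat.ble i 92) (cond (Nat.ble i 91) e91 e92) (cond (Nat.ble i 93) e93 (cond (Nat.ble i 94) e94 e95))) (cond (Nat.ble i 98) (cond (Nat.ble i 96) e96 (cond (Nat.ble i 97) e97 e98)) (cond (Nat.ble i 99) e99 (cond (Nat.ble i 100) e100 e101)))) (cond (Nat.ble i 106) (cond (Nat.ble i 103) (cond (Nat.ble i 102) e102 e103) (cond (Nat.ble i 104) e104 (cond (Nat.ble i 105) e105 e106))) (cond (Nat.ble i 109) (cond (Nat.ble i 107) e107 (cond (Nat.ble i 108) e108 e109)) (cond (Nat.ble i 110) e110 (cond (Nat.ble i 111) e111 e112))))) (cond (Nat.ble i 123) (cond (Nat.ble i 117) (cond (Nat.ble i 114) (cond (Nat.ble i 113) e113 e114) (cond (Nat.ble i 115) e115 (cond (Nat.ble i 116) e116 e117))) (cond (Nat.ble i 120) (cond (Nat.ble i 118) e118 (cond (Nat.ble i 119) e119 e120)) (cond (Nat.ble i 121) e121 (cond (Nat.ble i 122) e122 e123)))) (cond (Nat.ble i 129) (cond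 (Nat.ble i 126) (cond (Nat.ble i 124) e124 (cond (Nat.ble i 125) e125 e126)) (cond (Nat.ble i 127) e127 (cond (Nat.ble i 128) e128 e129))) (cond (Nat.ble i 132) (cond (Nat.ble i 130) e130 (cond (Nat.ble i 131) e131 e132)) (cond (Nat.ble i 133) e133 (cond (Nat.ble i 134) e134 e135)))))) (cond (Nat.ble i 158) (cond (Nat.ble i 146) (cond (Nat.ble i 140) (cond (Nat.ble i 137) (cond (Nat.ble i 136) e136 e137) (cond (Nat.ble i 138) e138 (cond (Nat.ble i 139) e139 e140))) (cond (Nat.ble i 143) (cond (Nat.ble i 141) e141 (cond (Nat.ble i 142) e142 e143)) (cond (Nat.ble i 144) e144 (cond (Nat.ble i 145) e145 e146)))) (cond (Nat.ble i 152) (cond (Nat.ble i 149) (cond (Nat.ble i 147) e147 (cond (Nat.ble i 148) e148 e149)) (cond (Nat.ble i 150) e150 (cond (Nat.ble i 151) e151 e152))) (cond (Nat.ble i 155) (cond (Nat.ble i 153) e153 (cond (Nat.ble i 154) e154 e155)) (cond (Nat.ble i 156) e156 (cond (Nat.ble i 157) e157 e158))))) (cond (Nat.ble i 169)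 (cond (Nat.ble i 163) (cond (Nat.ble i 160) (cond (Nat.ble i 159) e159 e160) (cond (Nat.ble i 161) e161 (cond (Nat.ble i 162) e162 e163))) (cond (Nat.ble i 166) (cond (Nat.ble i 164) e164 (cond (Nat.ble i 165) e165 e166)) (cond (Nat.ble i 167) e167 (cond (Nat.ble i 168) e168 e169)))) (cond (Nat.ble i 175) (cond (Nat.ble i 172) (cond (Nat.ble i 170) e170 (cond (Nat.ble i 171) e171 e172)) (cond (Nat.ble i 173) e173 (cond (Nat.ble i 174) e174 e175))) (cond (Nat.ble i 178) (cond (Nat.ble i 176) e176 (cond (Nat.ble i 177) e177 e178)) (cond (Nat.ble i 179) e179 (cond (Nat.ble i 180) e180 e181)))))))) (cond (Nat.ble i 272) (cond (Nat.ble i 226) (cond (Nat.ble i 203) (cond (Nat.ble i 192) (cond (Nat.ble i 186) (cond (Nat.ble i 183) (cond (Nat.ble i 182) e182 e183) (cond (Nat.ble i 184) e184 (cond (Nat.ble i 185) e185 e186))) (cond (Nat.ble i 189) (cond (Nat.ble i 187) e187 (cond (Nat.ble i 188) e188 e189)) (cond (Nat.ble i 190) e190 (cond (Nat.ble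 i 191) e191 e192)))) (cond (Nat.ble i 197) (cond (Nat.ble i 194) (cond (Nat.ble i 193) e193 e194) (cond (Nat.ble i 195) e195 (cond (Nat.ble i 196) e196 e197))) (cond (Nat.ble i 200) (cond (Nat.ble i 198) e198 (cond (Nat.ble i 199) e199 e200)) (cond (Nat.ble i 201) e201 (cond (Nat.ble i 202) e202 e203))))) (cond (Nat.ble i 214) (cond (Nat.ble i 208) (cond (Nat.ble i 205) (cond (Nat.ble i 204) e204 e205) (cond (Nat.ble i 206) e206 (cond (Nat.ble i 207) e207 e208))) (cond (Nat.ble i 211) (cond (Nat.ble i 209) e209 (cond (Nat.ble i 210) e210 e211)) (cond (Nat.ble i 212) e212 (cond (Nat.ble i 213) e213 e214)))) (cond (Nat.ble i 220) (cond (Nat.ble i 217) (cond (Nat.ble i 215) e215 (cond (Nat.ble i 216) e216 e217)) (cond (Nat.ble i 218) e218 (cond (Nat.ble i 219) e219 e220))) (cond (Nat.ble i 223) (cond (Nat.ble i 221) e221 (cond (Nat.ble i 222) e222 e223)) (cond (Nat.ble i 224) e224 (cond (Nat.ble i 225) e225 e226)))))) (cond (Nat.ble i 249)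 (cond (Nat.ble i 237) (cond (Nat.ble i 231) (cond (Nat.ble i 228) (cond (Nat.ble i 227) e227 e228) (cond (Nat.ble i 229) e229 (cond (Nat.ble i 230) e230 e231))) (cond (Nat.ble i 234) (cond (Nat.ble i 232) e232 (cond (Nat.ble i 233) e233 e234)) (cond (Nat.ble i 235) e235 (cond (Nat.ble i 236) e236 e237)))) (cond (Nat.ble i 243) (cond (Nat.ble i 240) (cond (Nat.ble i 238) e238 (cond (Nat.ble i 239) e239 e240)) (cond (Nat.ble i 241) e241 (cond (Nat.ble i 242) e242 e243))) (cond (Nat.ble i 246) (cond (Nat.ble i 244) e244 (cond (Nat.ble i 245) e245 e246)) (cond (Nat.ble i 247) e247 (cond (Nat.ble i 248) e248 e249))))) (cond (Nat.ble i 260) (cond (Nat.ble i 254) (cond (Nat.ble i 251) (cond (Nat.ble i 250) e250 e251) (cond (Nat.ble i 252) e252 (cond (Nat.ble i 253) e253 e254))) (cond (Nat.ble i 257) (cond (Nat.ble i 255) e255 (cond (Nat.ble i 256) e256 e257)) (cond (Nat.ble i 258) e258 (cond (Nat.ble i 259) e259 e260)))) (cond (Nat.ble i 266) (cond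 (Nat.ble i 263) (cond (Nat.ble i 261) e261 (cond (Nat.ble i 262) e262 e263)) (cond (Nat.ble i 264) e264 (cond (Nat.ble i 265) e265 e266))) (cond (Nat.ble i 269) (cond (Nat.ble i 267) e267 (cond (Nat.ble i 268) e268 e269)) (cond (Nat.ble i 270) e270 (cond (Nat.ble i 271) e271 e272))))))) (cond (Nat.ble i 317) (cond (Nat.ble i 294) (cond (Nat.ble i 283) (cond (Nat.ble i 277) (cond (Nat.ble i 274) (cond (Nat.ble i 273) e273 e274) (cond (Nat.ble i 275) e275 (cond (Nat.ble i 276) e276 e277))) (cond (Nat.ble i 280) (cond (Nat.ble i 278) e278 (cond (Nat.ble i 279) e279 e280)) (cond (Nat.ble i 281) e281 (cond (Nat.ble i 282) e282 e283)))) (cond (Nat.ble i 288) (cond (Nat.ble i 285) (cond (Nat.ble i 284) e284 e285) (cond (Nat.ble i 286) e286 (cond (Nat.ble i 287) e287 e288))) (cond (Nat.ble i 291) (cond (Nat.ble i 289) e289 (cond (Nat.ble i 290) e290 e291)) (cond (Nat.ble i 292) e292 (cond (Nat.ble i 293) e293 e294))))) (cond (Nat.ble i 305) (cond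 (Nat.ble i 299) (cond (Nat.ble i 296) (cond (Nat.ble i 295) e295 e296) (cond (Nat.ble i 297) e297 (cond (Nat.ble i 298) e298 e299))) (cond (Nat.ble i 302) (cond (Nat.ble i 300) e300 (cond (Nat.ble i 301) e301 e302)) (cond (Nat.ble i 303) e303 (cond (Nat.ble i 304) e304 e305)))) (cond (Nat.ble i 311) (cond (Nat.ble i 308) (cond (Nat.ble i 306) e306 (cond (Nat.ble i 307) e307 e308)) (cond (Nat.ble i 309) e309 (cond (Nat.ble i 310) e310 e311))) (cond (Nat.ble i 314) (cond (Nat.ble i 312) e312 (cond (Nat.ble i 313) e313 e314)) (cond (Nat.ble i 315) e315 (cond (Nat.ble i 316) e316 e317)))))) (cond (Nat.ble i 340) (cond (Nat.ble i 328) (cond (Nat.ble i 322) (cond (Nat.ble i 319) (cond (Nat.ble i 318) e318 e319) (cond (Nat.ble i 320) e320 (cond (Nat.ble i 321) e321 e322))) (cond (Nat.ble i 325) (cond (Nat.ble i 323) e323 (cond (Nat.ble i 324) e324 e325)) (cond (Nat.ble i 326) e326 (cond (Nat.ble i 327) e327 e328)))) (cond (Nat.ble i 334) (cond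 (Nat.ble i 331) (cond (Nat.ble i 329) e329 (cond (Nat.ble i 330) e330 e331)) (cond (Nat.ble i 332) e332 (cond (Nat.ble i 333) e333 e334))) (cond (Nat.ble i 337) (cond (Nat.ble i 335) e335 (cond (Nat.ble i 336) e336 e337)) (cond (Nat.ble i 338) e338 (cond (Nat.ble i 339) e339 e340))))) (cond (Nat.ble i 351) (cond (Nat.ble i 345) (cond (Nat.ble i 342) (cond (Nat.ble i 341) e341 e342) (cond (Nat.ble i 343) e343 (cond (Nat.ble i 344) e344 e345))) (cond (Nat.ble i 348) (cond (Nat.ble i 346) e346 (cond (Nat.ble i 347) e347 e348)) (cond (Nat.ble i 349) e349 (cond (Nat.ble i 350) e350 e351)))) (cond (Nat.ble i 357) (cond (Nat.ble i 354) (cond (Nat.ble i 352) e352 (cond (Nat.ble i 353) e353 e354)) (cond (Nat.ble i 355) e355 (cond (Nat.ble i 356) e356 e357))) (cond (Nat.ble i 360) (cond (Nat.ble i 358) e358 (cond (Nat.ble i 359) e359 e360)) (cond (Nat.ble i 361) e361 (cond (Nat.ble i 362) e362 e363))))))))) (cond (Nat.ble i 545) (cond (Nat.ble i 454)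 (cond (Nat.ble i 408) (cond (Nat.ble i 385) (cond (Nat.ble i 374) (cond (Nat.ble i 368) (cond (Nat.ble i 365) (cond (Nat.ble i 364) e364 e365) (cond (Nat.ble i 366) e366 (cond (Nat.ble i 367) e367 e368))) (cond (Nat.ble i 371) (cond (Nat.ble i 369) e369 (cond (Nat.ble i 370) e370 e371)) (cond (Nat.ble i 372) e372 (cond (Nat.ble i 373) e373 e374)))) (cond (Nat.ble i 379) (cond (Nat.ble i 376) (cond (Nat.ble i 375) e375 e376) (cond (Nat.ble i 377) e377 (cond (Nat.ble i 378) e378 e379))) (cond (Nat.ble i 382) (cond (Nat.ble i 380) e380 (cond (Nat.ble i 381) e381 e382)) (cond (Nat.ble i 383) e383 (cond (Nat.ble i 384) e384 e385))))) (cond (Nat.ble i 396) (cond (Nat.ble i 390) (cond (Nat.ble i 387) (cond (Nat.ble i 386) e386 e387) (cond (Nat.ble i 388) e388 (cond (Nat.ble i 389) e389 e390))) (cond (Nat.ble i 393) (cond (Nat.ble i 391) e391 (cond (Nat.ble i 392) e392 e393)) (cond (Nat.ble i 394) e394 (cond (Nat.ble i 395) e395 e396)))) (cond (Nat.ble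 i 402) (cond (Nat.ble i 399) (cond (Nat.ble i 397) e397 (cond (Nat.ble i 398) e398 e399)) (cond (Nat.ble i 400) e400 (cond (Nat.ble i 401) e401 e402))) (cond (Nat.ble i 405) (cond (Nat.ble i 403) e403 (cond (Nat.ble i 404) e404 e405)) (cond (Nat.ble i 406) e406 (cond (Nat.ble i 407) e407 e408)))))) (cond (Nat.ble i 431) (cond (Nat.ble i 419) (cond (Nat.ble i 413) (cond (Nat.ble i 410) (cond (Nat.ble i 409) e409 e410) (cond (Nat.ble i 411) e411 (cond (Nat.ble i 412) e412 e413))) (cond (Nat.ble i 416) (cond (Nat.ble i 414) e414 (cond (Nat.ble i 415) e415 e416)) (cond (Nat.ble i 417) e417 (cond (Nat.ble i 418) e418 e419)))) (cond (Nat.ble i 425) (cond (Nat.ble i 422) (cond (Nat.ble i 420) e420 (cond (Nat.ble i 421) e421 e422)) (cond (Nat.ble i 423) e423 (cond (Nat.ble i 424) e424 e425))) (cond (Nat.ble i 428) (cond (Nat.ble i 426) e426 (cond (Nat.ble i 427) e427 e428)) (cond (Nat.ble i 429) e429 (cond (Nat.ble i 430) e430 e431))))) (cond (Nat.ble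 i 442) (cond (Nat.ble i 436) (cond (Nat.ble i 433) (cond (Nat.ble i 432) e432 e433) (cond (Nat.ble i 434) e434 (cond (Nat.ble i 435) e435 e436))) (cond (Nat.ble i 439) (cond (Nat.ble i 437) e437 (cond (Nat.ble i 438) e438 e439)) (cond (Nat.ble i 440) e440 (cond (Nat.ble i 441) e441 e442)))) (cond (Nat.ble i 448) (cond (Nat.ble i 445) (cond (Nat.ble i 443) e443 (cond (Nat.ble i 444) e444 e445)) (cond (Nat.ble i 446) e446 (cond (Nat.ble i 447) e447 e448))) (cond (Nat.ble i 451) (cond (Nat.ble i 449) e449 (cond (Nat.ble i 450) e450 e451)) (cond (Nat.ble i 452) e452 (cond (Nat.ble i 453) e453 e454))))))) (cond (Nat.ble i 499) (cond (Nat.ble i 476) (cond (Nat.ble i 465) (cond (Nat.ble i 459) (cond (Nat.ble i 456) (cond (Nat.ble i 455) e455 e456) (cond (Nat.ble i 457) e457 (cond (Nat.ble i 458) e458 e459))) (cond (Nat.ble i 462) (cond (Nat.ble i 460) e460 (cond (Nat.ble i 461) e461 e462)) (cond (Nat.ble i 463) e463 (cond (Nat.ble i 464) e464 e465))))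 (cond (Nat.ble i 470) (cond (Nat.ble i 467) (cond (Nat.ble i 466) e466 e467) (cond (Nat.ble i 468) e468 (cond (Nat.ble i 469) e469 e470))) (cond (Nat.ble i 473) (cond (Nat.ble i 471) e471 (cond (Nat.ble i 472) e472 e473)) (cond (Nat.ble i 474) e474 (cond (Nat.ble i 475) e475 e476))))) (cond (Nat.ble i 487) (cond (Nat.ble i 481) (cond (Nat.ble i 478) (cond (Nat.ble i 477) e477 e478) (cond (Nat.ble i 479) e479 (cond (Nat.ble i 480) e480 e481))) (cond (Nat.ble i 484) (cond (Nat.ble i 482) e482 (cond (Nat.ble i 483) e483 e484)) (cond (Nat.ble i 485) e485 (cond (Nat.ble i 486) e486 e487)))) (cond (Nat.ble i 493) (cond (Nat.ble i 490) (cond (Nat.ble i 488) e488 (cond (Nat.ble i 489) e489 e490)) (cond (Nat.ble i 491) e491 (cond (Nat.ble i 492) e492 e493))) (cond (Nat.ble i 496) (cond (Nat.ble i 494) e494 (cond (Nat.ble i 495) e495 e496)) (cond (Nat.ble i 497) e497 (cond (Nat.ble i 498) e498 e499)))))) (cond (Nat.ble i 522) (cond (Nat.ble i 510)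 (cond (Nat.ble i 504) (cond (Nat.ble i 501) (cond (Nat.ble i 500) e500 e501) (cond (Nat.ble i 502) e502 (cond (Nat.ble i 503) e503 e504))) (cond (Nat.ble i 507) (cond (Nat.ble i 505) e505 (cond (Nat.ble i 506) e506 e507)) (cond (Nat.ble i 508) e508 (cond (Nat.ble i 509) e509 e510)))) (cond (Nat.ble i 516) (cond (Nat.ble i 513) (cond (Nat.ble i 511) e511 (cond (Nat.ble i 512) e512 e513)) (cond (Nat.ble i 514) e514 (cond (Nat.ble i 515) e515 e516))) (cond (Nat.ble i 519) (cond (Nat.ble i 517) e517 (cond (Nat.ble i 518) e518 e519)) (cond (Nat.ble i 520) e520 (cond (Nat.ble i 521) e521 e522))))) (cond (Nat.ble i 533) (cond (Nat.ble i 527) (cond (Nat.ble i 524) (cond (Nat.ble i 523) e523 e524) (cond (Nat.ble i 525) e525 (cond (Nat.ble i 526) e526 e527))) (cond (Nat.ble i 530) (cond (Nat.ble i 528) e528 (cond (Nat.ble i 529) e529 e530)) (cond (Nat.ble i 531) e531 (cond (Nat.ble i 532) e532 e533)))) (cond (Nat.ble i 539) (cond (Nat.ble i 536) (cond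 (Nat.ble i 534) e534 (cond (Nat.ble i 535) e535 e536)) (cond (Nat.ble i 537) e537 (cond (Nat.ble i 538) e538 e539))) (cond (Nat.ble i 542) (cond (Nat.ble i 540) e540 (cond (Nat.ble i 541) e541 e542)) (cond (Nat.ble i 543) e543 (cond (Nat.ble i 544) e544 e545)))))))) (cond (Nat.ble i 636) (cond (Nat.ble i 590) (cond (Nat.ble i 567) (cond (Nat.ble i 556) (cond (Nat.ble i 550) (cond (Nat.ble i 547) (cond (Nat.ble i 546) e546 e547) (cond (Nat.ble i 548) e548 (cond (Nat.ble i 549) e549 e550))) (cond (Nat.ble i 553) (cond (Nat.ble i 551) e551 (cond (Nat.ble i 552) e552 e553)) (cond (Nat.ble i 554) e554 (cond (Nat.ble i 555) e555 e556)))) (cond (Nat.ble i 561) (cond (Nat.ble i 558) (cond (Nat.ble i 557) e557 e558) (cond (Nat.ble i 559) e559 (cond (Nat.ble i 560) e560 e561))) (cond (Nat.ble i 564) (cond (Nat.ble i 562) e562 (cond (Nat.ble i 563) e563 e564)) (cond (Nat.ble i 565) e565 (cond (Nat.ble i 566) e566 e567))))) (cond (Nat.ble i 578) (cond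 (Nat.ble i 572) (cond (Nat.ble i 569) (cond (Nat.ble i 568) e568 e569) (cond (Nat.ble i 570) e570 (cond (Nat.ble i 571) e571 e572))) (cond (Nat.ble i 575) (cond (Nat.ble i 573) e573 (cond (Nat.ble i 574) e574 e575)) (cond (Nat.ble i 576) e576 (cond (Nat.ble i 577) e577 e578)))) (cond (Nat.ble i 584) (cond (Nat.ble i 581) (cond (Nat.ble i 579) e579 (cond (Nat.ble i 580) e580 e581)) (cond (Nat.ble i 582) e582 (cond (Nat.ble i 583) e583 e584))) (cond (Nat.ble i 587) (cond (Nat.ble i 585) e585 (cond (Nat.ble i 586) e586 e587)) (cond (Nat.ble i 588) e588 (cond (Nat.ble i 589) e589 e590)))))) (cond (Nat.ble i 613) (cond (Nat.ble i 601) (cond (Nat.ble i 595) (cond (Nat.ble i 592) (cond (Nat.ble i 591) e591 e592) (cond (Nat.ble i 593) e593 (cond (Nat.ble i 594) e594 e595))) (cond (Nat.ble i 598) (cond (Nat.ble i 596) e596 (cond (Nat.ble i 597) e597 e598)) (cond (Nat.ble i 599) e599 (cond (Nat.ble i 600) e600 e601)))) (cond (Nat.ble i 607) (cond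 (Nat.ble i 604) (cond (Nat.ble i 602) e602 (cond (Nat.ble i 603) e603 e604)) (cond (Nat.ble i 605) e605 (cond (Nat.ble i 606) e606 e607))) (cond (Nat.ble i 610) (cond (Nat.ble i 608) e608 (cond (Nat.ble i 609) e609 e610)) (cond (Nat.ble i 611) e611 (cond (Nat.ble i 612) e612 e613))))) (cond (Nat.ble i 624) (cond (Nat.ble i 618) (cond (Nat.ble i 615) (cond (Nat.ble i 614) e614 e615) (cond (Nat.ble i 616) e616 (cond (Nat.ble i 617) e617 e618))) (cond (Nat.ble i 621) (cond (Nat.ble i 619) e619 (cond (Nat.ble i 620) e620 e621)) (cond (Nat.ble i 622) e622 (cond (Nat.ble i 623) e623 e624)))) (cond (Nat.ble i 630) (cond (Nat.ble i 627) (cond (Nat.ble i 625) e625 (cond (Nat.ble i 626) e626 e627)) (cond (Nat.ble i 628) e628 (cond (Nat.ble i 629) e629 e630))) (cond (Nat.ble i 633) (cond (Nat.ble i 631) e631 (cond (Nat.ble i 632) e632 e633)) (cond (Nat.ble i 634) e634 (cond (Nat.ble i 635) e635 e636))))))) (cond (Nat.ble i 682) (cond (Nat.ble i 659)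 (cond (Nat.ble i 647) (cond (Nat.ble i 641) (cond (Nat.ble i 638) (cond (Nat.ble i 637) e637 e638) (cond (Nat.ble i 639) e639 (cond (Nat.ble i 640) e640 e641))) (cond (Nat.ble i 644) (cond (Nat.ble i 642) e642 (cond (Nat.ble i 643) e643 e644)) (cond (Nat.ble i 645) e645 (cond (Nat.ble i 646) e646 e647)))) (cond (Nat.ble i 653) (cond (Nat.ble i 650) (cond (Nat.ble i 648) e648 (cond (Nat.ble i 649) e649 e650)) (cond (Nat.ble i 651) e651 (cond (Nat.ble i 652) e652 e653))) (cond (Nat.ble i 656) (cond (Nat.ble i 654) e654 (cond (Nat.ble i 655) e655 e656)) (cond (Nat.ble i 657) e657 (cond (Nat.ble i 658) e658 e659))))) (cond (Nat.ble i 670) (cond (Nat.ble i 664) (cond (Nat.ble i 661) (cond (Nat.ble i 660) e660 e661) (cond (Nat.ble i 662) e662 (cond (Nat.ble i 663) e663 e664))) (cond (Nat.ble i 667) (cond (Nat.ble i 665) e665 (cond (Nat.ble i 666) e666 e667)) (cond (Nat.ble i 668) e668 (cond (Nat.ble i 669) e669 e670)))) (cond (Nat.ble i 676) (cond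 (Nat.ble i 673) (cond (Nat.ble i 671) e671 (cond (Nat.ble i 672) e672 e673)) (cond (Nat.ble i 674) e674 (cond (Nat.ble i 675) e675 e676))) (cond (Nat.ble i 679) (cond (Nat.ble i 677) e677 (cond (Nat.ble i 678) e678 e679)) (cond (Nat.ble i 680) e680 (cond (Nat.ble i 681) e681 e682)))))) (cond (Nat.ble i 705) (cond (Nat.ble i 693) (cond (Nat.ble i 687) (cond (Nat.ble i 684) (cond (Nat.ble i 683) e683 e684) (cond (Nat.ble i 685) e685 (cond (Nat.ble i 686) e686 e687))) (cond (Nat.ble i 690) (cond (Nat.ble i 688) e688 (cond (Nat.ble i 689) e689 e690)) (cond (Nat.ble i 691) e691 (cond (Nat.ble i 692) e692 e693)))) (cond (Nat.ble i 699) (cond (Nat.ble i 696) (cond (Nat.ble i 694) e694 (cond (Nat.ble i 695) e695 e696)) (cond (Nat.ble i 697) e697 (cond (Nat.ble i 698) e698 e699))) (cond (Nat.ble i 702) (cond (Nat.ble i 700) e700 (cond (Nat.ble i 701) e701 e702)) (cond (Nat.ble i 703) e703 (cond (Nat.ble i 704) e704 e705))))) (cond (Nat.ble i 716)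 (cond (Nat.ble i 710) (cond (Nat.ble i 707) (cond (Nat.ble i 706) e706 e707) (cond (Nat.ble i 708) e708 (cond (Nat.ble i 709) e709 e710))) (cond (Nat.ble i 713) (cond (Nat.ble i 711) e711 (cond (Nat.ble i 712) e712 e713)) (cond (Nat.ble i 714) e714 (cond (Nat.ble i 715) e715 e716)))) (cond (Nat.ble i 722) (cond (Nat.ble i 719) (cond (Nat.ble i 717) e717 (cond (Nat.ble i 718) e718 e719)) (cond (Nat.ble i 720) e720 (cond (Nat.ble i 721) e721 e722))) (cond (Nat.ble i 725) (cond (Nat.ble i 723) e723 (cond (Nat.ble i 724) e724 e725)) (cond (Nat.ble i 726) e726 (cond (Nat.ble i 727) e727 e728)))))))))) (cond (Nat.ble i 1092) (cond (Nat.ble i 910) (cond (Nat.ble i 819) (cond (Nat.ble i 773) (cond (Nat.ble i 750) (cond (Nat.ble i 739) (cond (Nat.ble i 733) (cond (Nat.ble i 730) (cond (Nat.ble i 729) e729 e730) (cond (Nat.ble i 731) e731 (cond (Nat.ble i 732) e732 e733))) (cond (Nat.ble i 736) (cond (Nat.ble i 734) e734 (cond (Nat.ble i 735) e735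 e736)) (cond (Nat.ble i 737) e737 (cond (Nat.ble i 738) e738 e739)))) (cond (Nat.ble i 744) (cond (Nat.ble i 741) (cond (Nat.ble i 740) e740 e741) (cond (Nat.ble i 742) e742 (cond (Nat.ble i 743) e743 e744))) (cond (Nat.ble i 747) (cond (Nat.ble i 745) e745 (cond (Nat.ble i 746) e746 e747)) (cond (Nat.ble i 748) e748 (cond (Nat.ble i 749) e749 e750))))) (cond (Nat.ble i 761) (cond (Nat.ble i 755) (cond (Nat.ble i 752) (cond (Nat.ble i 751) e751 e752) (cond (Nat.ble i 753) e753 (cond (Nat.ble i 754) e754 e755))) (cond (Nat.ble i 758) (cond (Nat.ble i 756) e756 (cond (Nat.ble i 757) e757 e758)) (cond (Nat.ble i 759) e759 (cond (Nat.ble i 760) e760 e761)))) (cond (Nat.ble i 767) (cond (Nat.ble i 764) (cond (Nat.ble i 762) e762 (cond (Nat.ble i 763) e763 e764)) (cond (Nat.ble i 765) e765 (cond (Nat.ble i 766) e766 e767))) (cond (Nat.ble i 770) (cond (Nat.ble i 768) e768 (cond (Nat.ble i 769) e769 e770)) (cond (Nat.ble i 771) e771 (cond (Nat.ble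 i 772) e772 e773)))))) (cond (Nat.ble i 796) (cond (Nat.ble i 784) (cond (Nat.ble i 778) (cond (Nat.ble i 775) (cond (Nat.ble i 774) e774 e775) (cond (Nat.ble i 776) e776 (cond (Nat.ble i 777) e777 e778))) (cond (Nat.ble i 781) (cond (Nat.ble i 779) e779 (cond (Nat.ble i 780) e780 e781)) (cond (Nat.ble i 782) e782 (cond (Nat.ble i 783) e783 e784)))) (cond (Nat.ble i 790) (cond (Nat.ble i 787) (cond (Nat.ble i 785) e785 (cond (Nat.ble i 786) e786 e787)) (cond (Nat.ble i 788) e788 (cond (Nat.ble i 789) e789 e790))) (cond (Nat.ble i 793) (cond (Nat.ble i 791) e791 (cond (Nat.ble i 792) e792 e793)) (cond (Nat.ble i 794) e794 (cond (Nat.ble i 795) e795 e796))))) (cond (Nat.ble i 807) (cond (Nat.ble i 801) (cond (Nat.ble i 798) (cond (Nat.ble i 797) e797 e798) (cond (Nat.ble i 799) e799 (cond (Nat.ble i 800) e800 e801))) (cond (Nat.ble i 804) (cond (Nat.ble i 802) e802 (cond (Nat.ble i 803) e803 e804)) (cond (Nat.ble i 805) e805 (cond (Nat.ble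 i 806) e806 e807)))) (cond (Nat.ble i 813) (cond (Nat.ble i 810) (cond (Nat.ble i 808) e808 (cond (Nat.ble i 809) e809 e810)) (cond (Nat.ble i 811) e811 (cond (Nat.ble i 812) e812 e813))) (cond (Nat.ble i 816) (cond (Nat.ble i 814) e814 (cond (Nat.ble i 815) e815 e816)) (cond (Nat.ble i 817) e817 (cond (Nat.ble i 818) e818 e819))))))) (cond (Nat.ble i 864) (cond (Nat.ble i 841) (cond (Nat.ble i 830) (cond (Nat.ble i 824) (cond (Nat.ble i 821) (cond (Nat.ble i 820) e820 e821) (cond (Nat.ble i 822) e822 (cond (Nat.ble i 823) e823 e824))) (cond (Nat.ble i 827) (cond (Nat.ble i 825) e825 (cond (Nat.ble i 826) e826 e827)) (cond (Nat.ble i 828) e828 (cond (Nat.ble i 829) e829 e830)))) (cond (Nat.ble i 835) (cond (Nat.ble i 832) (cond (Nat.ble i 831) e831 e832) (cond (Nat.ble i 833) e833 (cond (Nat.ble i 834) e834 e835))) (cond (Nat.ble i 838) (cond (Nat.ble i 836) e836 (cond (Nat.ble i 837) e837 e838)) (cond (Nat.ble i 839) e839 (cond (Nat.ble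 i 840) e840 e841))))) (cond (Nat.ble i 852) (cond (Nat.ble i 846) (cond (Nat.ble i 843) (cond (Nat.ble i 842) e842 e843) (cond (Nat.ble i 844) e844 (cond (Nat.ble i 845) e845 e846))) (cond (Nat.ble i 849) (cond (Nat.ble i 847) e847 (cond (Nat.ble i 848) e848 e849)) (cond (Nat.ble i 850) e850 (cond (Nat.ble i 851) e851 e852)))) (cond (Nat.ble i 858) (cond (Nat.ble i 855) (cond (Nat.ble i 853) e853 (cond (Nat.ble i 854) e854 e855)) (cond (Nat.ble i 856) e856 (cond (Nat.ble i 857) e857 e858))) (cond (Nat.ble i 861) (cond (Nat.ble i 859) e859 (cond (Nat.ble i 860) e860 e861)) (cond (Nat.ble i 862) e862 (cond (Nat.ble i 863) e863 e864)))))) (cond (Nat.ble i 887) (cond (Nat.ble i 875) (cond (Nat.ble i 869) (cond (Nat.ble i 866) (cond (Nat.ble i 865) e865 e866) (cond (Nat.ble i 867) e867 (cond (Nat.ble i 868) e868 e869))) (cond (Nat.ble i 872) (cond (Nat.ble i 870) e870 (cond (Nat.ble i 871) e871 e872)) (cond (Nat.ble i 873) e873 (cond (Nat.ble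 i 874) e874 e875)))) (cond (Nat.ble i 881) (cond (Nat.ble i 878) (cond (Nat.ble i 876) e876 (cond (Nat.ble i 877) e877 e878)) (cond (Nat.ble i 879) e879 (cond (Nat.ble i 880) e880 e881))) (cond (Nat.ble i 884) (cond (Nat.ble i 882) e882 (cond (Nat.ble i 883) e883 e884)) (cond (Nat.ble i 885) e885 (cond (Nat.ble i 886) e886 e887))))) (cond (Nat.ble i 898) (cond (Nat.ble i 892) (cond (Nat.ble i 889) (cond (Nat.ble i 888) e888 e889) (cond (Nat.ble i 890) e890 (cond (Nat.ble i 891) e891 e892))) (cond (Nat.ble i 895) (cond (Nat.ble i 893) e893 (cond (Nat.ble i 894) e894 e895)) (cond (Nat.ble i 896) e896 (cond (Nat.ble i 897) e897 e898)))) (cond (Nat.ble i 904) (cond (Nat.ble i 901) (cond (Nat.ble i 899) e899 (cond (Nat.ble i 900) e900 e901)) (cond (Nat.ble i 902) e902 (cond (Nat.ble i 903) e903 e904))) (cond (Nat.ble i 907) (cond (Nat.ble i 905) e905 (cond (Nat.ble i 906) e906 e907)) (cond (Nat.ble i 908) e908 (cond (Nat.ble i 909) e909 e910))))))))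 (cond (Nat.ble i 1001) (cond (Nat.ble i 955) (cond (Nat.ble i 932) (cond (Nat.ble i 921) (cond (Nat.ble i 915) (cond (Nat.ble i 912) (cond (Nat.ble i 911) e911 e912) (cond (Nat.ble i 913) e913 (cond (Nat.ble i 914) e914 e915))) (cond (Nat.ble i 918) (cond (Nat.ble i 916) e916 (cond (Nat.ble i 917) e917 e918)) (cond (Nat.ble i 919) e919 (cond (Nat.ble i 920) e920 e921)))) (cond (Nat.ble i 926) (cond (Nat.ble i 923) (cond (Nat.ble i 922) e922 e923) (cond (Nat.ble i 924) e924 (cond (Nat.ble i 925) e925 e926))) (cond (Nat.ble i 929) (cond (Nat.ble i 927) e927 (cond (Nat.ble i 928) e928 e929)) (cond (Nat.ble i 930) e930 (cond (Nat.ble i 931) e931 e932))))) (cond (Nat.ble i 943) (cond (Nat.ble i 937) (cond (Nat.ble i 934) (cond (Nat.ble i 933) e933 e934) (cond (Nat.ble i 935) e935 (cond (Nat.ble i 936) e936 e937))) (cond (Nat.ble i 940) (cond (Nat.ble i 938) e938 (cond (Nat.ble i 939) e939 e940)) (cond (Nat.ble i 941) e941 (cond (Nat.ble i 942)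 e942 e943)))) (cond (Nat.ble i 949) (cond (Nat.ble i 946) (cond (Nat.ble i 944) e944 (cond (Nat.ble i 945) e945 e946)) (cond (Nat.ble i 947) e947 (cond (Nat.ble i 948) e948 e949))) (cond (Nat.ble i 952) (cond (Nat.ble i 950) e950 (cond (Nat.ble i 951) e951 e952)) (cond (Nat.ble i 953) e953 (cond (Nat.ble i 954) e954 e955)))))) (cond (Nat.ble i 978) (cond (Nat.ble i 966) (cond (Nat.ble i 960) (cond (Nat.ble i 957) (cond (Nat.ble i 956) e956 e957) (cond (Nat.ble i 958) e958 (cond (Nat.ble i 959) e959 e960))) (cond (Nat.ble i 963) (cond (Nat.ble i 961) e961 (cond (Nat.ble i 962) e962 e963)) (cond (Nat.ble i 964) e964 (cond (Nat.ble i 965) e965 e966)))) (cond (Nat.ble i 972) (cond (Nat.ble i 969) (cond (Nat.ble i 967) e967 (cond (Nat.ble i 968) e968 e969)) (cond (Nat.ble i 970) e970 (cond (Nat.ble i 971) e971 e972))) (cond (Nat.ble i 975) (cond (Nat.ble i 973) e973 (cond (Nat.ble i 974) e974 e975)) (cond (Nat.ble i 976) e976 (cond (Nat.ble i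 977) e977 e978))))) (cond (Nat.ble i 989) (cond (Nat.ble i 983) (cond (Nat.ble i 980) (cond (Nat.ble i 979) e979 e980) (cond (Nat.ble i 981) e981 (cond (Nat.ble i 982) e982 e983))) (cond (Nat.ble i 986) (cond (Nat.ble i 984) e984 (cond (Nat.ble i 985) e985 e986)) (cond (Nat.ble i 987) e987 (cond (Nat.ble i 988) e988 e989)))) (cond (Nat.ble i 995) (cond (Nat.ble i 992) (cond (Nat.ble i 990) e990 (cond (Nat.ble i 991) e991 e992)) (cond (Nat.ble i 993) e993 (cond (Nat.ble i 994) e994 e995))) (cond (Nat.ble i 998) (cond (Nat.ble i 996) e996 (cond (Nat.ble i 997) e997 e998)) (cond (Nat.ble i 999) e999 (cond (Nat.ble i 1000) e1000 e1001))))))) (cond (Nat.ble i 1046) (cond (Nat.ble i 1023) (cond (Nat.ble i 1012) (cond (Nat.ble i 1006) (cond (Nat.ble i 1003) (cond (Nat.ble i 1002) e1002 e1003) (cond (Nat.ble i 1004) e1004 (cond (Nat.ble i 1005) e1005 e1006))) (cond (Nat.ble i 1009) (cond (Nat.ble i 1007) e1007 (cond (Nat.ble i 1008) e1008 e1009))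 (cond (Nat.ble i 1010) e1010 (cond (Nat.ble i 1011) e1011 e1012)))) (cond (Nat.ble i 1017) (cond (Nat.ble i 1014) (cond (Nat.ble i 1013) e1013 e1014) (cond (Nat.ble i 1015) e1015 (cond (Nat.ble i 1016) e1016 e1017))) (cond (Nat.ble i 1020) (cond (Nat.ble i 1018) e1018 (cond (Nat.ble i 1019) e1019 e1020)) (cond (Nat.ble i 1021) e1021 (cond (Nat.ble i 1022) e1022 e1023))))) (cond (Nat.ble i 1034) (cond (Nat.ble i 1028) (cond (Nat.ble i 1025) (cond (Nat.ble i 1024) e1024 e1025) (cond (Nat.ble i 1026) e1026 (cond (Nat.ble i 1027) e1027 e1028))) (cond (Nat.ble i 1031) (cond (Nat.ble i 1029) e1029 (cond (Nat.ble i 1030) e1030 e1031)) (cond (Nat.ble i 1032) e1032 (cond (Nat.ble i 1033) e1033 e1034)))) (cond (Nat.ble i 1040) (cond (Nat.ble i 1037) (cond (Nat.ble i 1035) e1035 (cond (Nat.ble i 1036) e1036 e1037)) (cond (Nat.ble i 1038) e1038 (cond (Nat.ble i 1039) e1039 e1040))) (cond (Nat.ble i 1043) (cond (Nat.ble i 1041) e1041 (cond (Nat.ble i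 1042) e1042 e1043)) (cond (Nat.ble i 1044) e1044 (cond (Nat.ble i 1045) e1045 e1046)))))) (cond (Nat.ble i 1069) (cond (Nat.ble i 1057) (cond (Nat.ble i 1051) (cond (Nat.ble i 1048) (cond (Nat.ble i 1047) e1047 e1048) (cond (Nat.ble i 1049) e1049 (cond (Nat.ble i 1050) e1050 e1051))) (cond (Nat.ble i 1054) (cond (Nat.ble i 1052) e1052 (cond (Nat.ble i 1053) e1053 e1054)) (cond (Nat.ble i 1055) e1055 (cond (Nat.ble i 1056) e1056 e1057)))) (cond (Nat.ble i 1063) (cond (Nat.ble i 1060) (cond (Nat.ble i 1058) e1058 (cond (Nat.ble i 1059) e1059 e1060)) (cond (Nat.ble i 1061) e1061 (cond (Nat.ble i 1062) e1062 e1063))) (cond (Nat.ble i 1066) (cond (Nat.ble i 1064) e1064 (cond (Nat.ble i 1065) e1065 e1066)) (cond (Nat.ble i 1067) e1067 (cond (Nat.ble i 1068) e1068 e1069))))) (cond (Nat.ble i 1080) (cond (Nat.ble i 1074) (cond (Nat.ble i 1071) (cond (Nat.ble i 1070) e1070 e1071) (cond (Nat.ble i 1072) e1072 (cond (Nat.ble i 1073) e1073 e1074)))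 (cond (Nat.ble i 1077) (cond (Nat.ble i 1075) e1075 (cond (Nat.ble i 1076) e1076 e1077)) (cond (Nat.ble i 1078) e1078 (cond (Nat.ble i 1079) e1079 e1080)))) (cond (Nat.ble i 1086) (cond (Nat.ble i 1083) (cond (Nat.ble i 1081) e1081 (cond (Nat.ble i 1082) e1082 e1083)) (cond (Nat.ble i 1084) e1084 (cond (Nat.ble i 1085) e1085 e1086))) (cond (Nat.ble i 1089) (cond (Nat.ble i 1087) e1087 (cond (Nat.ble i 1088) e1088 e1089)) (cond (Nat.ble i 1090) e1090 (cond (Nat.ble i 1091) e1091 e1092))))))))) (cond (Nat.ble i 1274) (cond (Nat.ble i 1183) (cond (Nat.ble i 1137) (cond (Nat.ble i 1114) (cond (Nat.ble i 1103) (cond (Nat.ble i 1097) (cond (Nat.ble i 1094) (cond (Nat.ble i 1093) e1093 e1094) (cond (Nat.ble i 1095) e1095 (cond (Nat.ble i 1096) e1096 e1097))) (cond (Nat.ble i 1100) (cond (Nat.ble i 1098) e1098 (cond (Nat.ble i 1099) e1099 e1100)) (cond (Nat.ble i 1101) e1101 (cond (Nat.ble i 1102) e1102 e1103)))) (cond (Nat.ble i 1108) (cond (Nat.ble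 i 1105) (cond (Nat.ble i 1104) e1104 e1105) (cond (Nat.ble i 1106) e1106 (cond (Nat.ble i 1107) e1107 e1108))) (cond (Nat.ble i 1111) (cond (Nat.ble i 1109) e1109 (cond (Nat.ble i 1110) e1110 e1111)) (cond (Nat.ble i 1112) e1112 (cond (Nat.ble i 1113) e1113 e1114))))) (cond (Nat.ble i 1125) (cond (Nat.ble i 1119) (cond (Nat.ble i 1116) (cond (Nat.ble i 1115) e1115 e1116) (cond (Nat.ble i 1117) e1117 (cond (Nat.ble i 1118) e1118 e1119))) (cond (Nat.ble i 1122) (cond (Nat.ble i 1120) e1120 (cond (Nat.ble i 1121) e1121 e1122)) (cond (Nat.ble i 1123) e1123 (cond (Nat.ble i 1124) e1124 e1125)))) (cond (Nat.ble i 1131) (cond (Nat.ble i 1128) (cond (Nat.ble i 1126) e1126 (cond (Nat.ble i 1127) e1127 e1128)) (cond (Nat.ble i 1129) e1129 (cond (Nat.ble i 1130) e1130 e1131))) (cond (Nat.ble i 1134) (cond (Nat.ble i 1132) e1132 (cond (Nat.ble i 1133) e1133 e1134)) (cond (Nat.ble i 1135) e1135 (cond (Nat.ble i 1136) e1136 e1137)))))) (cond (Nat.ble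 i 1160) (cond (Nat.ble i 1148) (cond (Nat.ble i 1142) (cond (Nat.ble i 1139) (cond (Nat.ble i 1138) e1138 e1139) (cond (Nat.ble i 1140) e1140 (cond (Nat.ble i 1141) e1141 e1142))) (cond (Nat.ble i 1145) (cond (Nat.ble i 1143) e1143 (cond (Nat.ble i 1144) e1144 e1145)) (cond (Nat.ble i 1146) e1146 (cond (Nat.ble i 1147) e1147 e1148)))) (cond (Nat.ble i 1154) (cond (Nat.ble i 1151) (cond (Nat.ble i 1149) e1149 (cond (Nat.ble i 1150) e1150 e1151)) (cond (Nat.ble i 1152) e1152 (cond (Nat.ble i 1153) e1153 e1154))) (cond (Nat.ble i 1157) (cond (Nat.ble i 1155) e1155 (cond (Nat.ble i 1156) e1156 e1157)) (cond (Nat.ble i 1158) e1158 (cond (Nat.ble i 1159) e1159 e1160))))) (cond (Nat.ble i 1171) (cond (Nat.ble i 1165) (cond (Nat.ble i 1162) (cond (Nat.ble i 1161) e1161 e1162) (cond (Nat.ble i 1163) e1163 (cond (Nat.ble i 1164) e1164 e1165))) (cond (Nat.ble i 1168) (cond (Nat.ble i 1166) e1166 (cond (Nat.ble i 1167) e1167 e1168)) (cond (Nat.ble i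 1169) e1169 (cond (Nat.ble i 1170) e1170 e1171)))) (cond (Nat.ble i 1177) (cond (Nat.ble i 1174) (cond (Nat.ble i 1172) e1172 (cond (Nat.ble i 1173) e1173 e1174)) (cond (Nat.ble i 1175) e1175 (cond (Nat.ble i 1176) e1176 e1177))) (cond (Nat.ble i 1180) (cond (Nat.ble i 1178) e1178 (cond (Nat.ble i 1179) e1179 e1180)) (cond (Nat.ble i 1181) e1181 (cond (Nat.ble i 1182) e1182 e1183))))))) (cond (Nat.ble i 1228) (cond (Nat.ble i 1205) (cond (Nat.ble i 1194) (cond (Nat.ble i 1188) (cond (Nat.ble i 1185) (cond (Nat.ble i 1184) e1184 e1185) (cond (Nat.ble i 1186) e1186 (cond (Nat.ble i 1187) e1187 e1188))) (cond (Nat.ble i 1191) (cond (Nat.ble i 1189) e1189 (cond (Nat.ble i 1190) e1190 e1191)) (cond (Nat.ble i 1192) e1192 (cond (Nat.ble i 1193) e1193 e1194)))) (cond (Nat.ble i 1199) (cond (Nat.ble i 1196) (cond (Nat.ble i 1195) e1195 e1196) (cond (Nat.ble i 1197) e1197 (cond (Nat.ble i 1198) e1198 e1199))) (cond (Nat.ble i 1202) (cond (Nat.ble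 i 1200) e1200 (cond (Nat.ble i 1201) e1201 e1202)) (cond (Nat.ble i 1203) e1203 (cond (Nat.ble i 1204) e1204 e1205))))) (cond (Nat.ble i 1216) (cond (Nat.ble i 1210) (cond (Nat.ble i 1207) (cond (Nat.ble i 1206) e1206 e1207) (cond (Nat.ble i 1208) e1208 (cond (Nat.ble i 1209) e1209 e1210))) (cond (Nat.ble i 1213) (cond (Nat.ble i 1211) e1211 (cond (Nat.ble i 1212) e1212 e1213)) (cond (Nat.ble i 1214) e1214 (cond (Nat.ble i 1215) e1215 e1216)))) (cond (Nat.ble i 1222) (cond (Nat.ble i 1219) (cond (Nat.ble i 1217) e1217 (cond (Nat.ble i 1218) e1218 e1219)) (cond (Nat.ble i 1220) e1220 (cond (Nat.ble i 1221) e1221 e1222))) (cond (Nat.ble i 1225) (cond (Nat.ble i 1223) e1223 (cond (Nat.ble i 1224) e1224 e1225)) (cond (Nat.ble i 1226) e1226 (cond (Nat.ble i 1227) e1227 e1228)))))) (cond (Nat.ble i 1251) (cond (Nat.ble i 1239) (cond (Nat.ble i 1233) (cond (Nat.ble i 1230) (cond (Nat.ble i 1229) e1229 e1230) (cond (Nat.ble i 1231) e1231 (cond (Nat.ble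 i 1232) e1232 e1233))) (cond (Nat.ble i 1236) (cond (Nat.ble i 1234) e1234 (cond (Nat.ble i 1235) e1235 e1236)) (cond (Nat.ble i 1237) e1237 (cond (Nat.ble i 1238) e1238 e1239)))) (cond (Nat.ble i 1245) (cond (Nat.ble i 1242) (cond (Nat.ble i 1240) e1240 (cond (Nat.ble i 1241) e1241 e1242)) (cond (Nat.ble i 1243) e1243 (cond (Nat.ble i 1244) e1244 e1245))) (cond (Nat.ble i 1248) (cond (Nat.ble i 1246) e1246 (cond (Nat.ble i 1247) e1247 e1248)) (cond (Nat.ble i 1249) e1249 (cond (Nat.ble i 1250) e1250 e1251))))) (cond (Nat.ble i 1262) (cond (Nat.ble i 1256) (cond (Nat.ble i 1253) (cond (Nat.ble i 1252) e1252 e1253) (cond (Nat.ble i 1254) e1254 (cond (Nat.ble i 1255) e1255 e1256))) (cond (Nat.ble i 1259) (cond (Nat.ble i 1257) e1257 (cond (Nat.ble i 1258) e1258 e1259)) (cond (Nat.ble i 1260) e1260 (cond (Nat.ble i 1261) e1261 e1262)))) (cond (Nat.ble i 1268) (cond (Nat.ble i 1265) (cond (Nat.ble i 1263) e1263 (cond (Nat.ble i 1264) e1264 e1265))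 (cond (Nat.ble i 1266) e1266 (cond (Nat.ble i 1267) e1267 e1268))) (cond (Nat.ble i 1271) (cond (Nat.ble i 1269) e1269 (cond (Nat.ble i 1270) e1270 e1271)) (cond (Nat.ble i 1272) e1272 (cond (Nat.ble i 1273) e1273 e1274)))))))) (cond (Nat.ble i 1365) (cond (Nat.ble i 1319) (cond (Nat.ble i 1296) (cond (Nat.ble i 1285) (cond (Nat.ble i 1279) (cond (Nat.ble i 1276) (cond (Nat.ble i 1275) e1275 e1276) (cond (Nat.ble i 1277) e1277 (cond (Nat.ble i 1278) e1278 e1279))) (cond (Nat.ble i 1282) (cond (Nat.ble i 1280) e1280 (cond (Nat.ble i 1281) e1281 e1282)) (cond (Nat.ble i 1283) e1283 (cond (Nat.ble i 1284) e1284 e1285)))) (cond (Nat.ble i 1290) (cond (Nat.ble i 1287) (cond (Nat.ble i 1286) e1286 e1287) (cond (Nat.ble i 1288) e1288 (cond (Nat.ble i 1289) e1289 e1290))) (cond (Nat.ble i 1293) (cond (Nat.ble i 1291) e1291 (cond (Nat.ble i 1292) e1292 e1293)) (cond (Nat.ble i 1294) e1294 (cond (Nat.ble i 1295) e1295 e1296))))) (cond (Nat.ble i 1307)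 (cond (Nat.ble i 1301) (cond (Nat.ble i 1298) (cond (Nat.ble i 1297) e1297 e1298) (cond (Nat.ble i 1299) e1299 (cond (Nat.ble i 1300) e1300 e1301))) (cond (Nat.ble i 1304) (cond (Nat.ble i 1302) e1302 (cond (Nat.ble i 1303) e1303 e1304)) (cond (Nat.ble i 1305) e1305 (cond (Nat.ble i 1306) e1306 e1307)))) (cond (Nat.ble i 1313) (cond (Nat.ble i 1310) (cond (Nat.ble i 1308) e1308 (cond (Nat.ble i 1309) e1309 e1310)) (cond (Nat.ble i 1311) e1311 (cond (Nat.ble i 1312) e1312 e1313))) (cond (Nat.ble i 1316) (cond (Nat.ble i 1314) e1314 (cond (Nat.ble i 1315) e1315 e1316)) (cond (Nat.ble i 1317) e1317 (cond (Nat.ble i 1318) e1318 e1319)))))) (cond (Nat.ble i 1342) (cond (Nat.ble i 1330) (cond (Nat.ble i 1324) (cond (Nat.ble i 1321) (cond (Nat.ble i 1320) e1320 e1321) (cond (Nat.ble i 1322) e1322 (cond (Nat.ble i 1323) e1323 e1324))) (cond (Nat.ble i 1327) (cond (Nat.ble i 1325) e1325 (cond (Nat.ble i 1326) e1326 e1327)) (cond (Nat.ble i 1328)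 e1328 (cond (Nat.ble i 1329) e1329 e1330)))) (cond (Nat.ble i 1336) (cond (Nat.ble i 1333) (cond (Nat.ble i 1331) e1331 (cond (Nat.ble i 1332) e1332 e1333)) (cond (Nat.ble i 1334) e1334 (cond (Nat.ble i 1335) e1335 e1336))) (cond (Nat.ble i 1339) (cond (Nat.ble i 1337) e1337 (cond (Nat.ble i 1338) e1338 e1339)) (cond (Nat.ble i 1340) e1340 (cond (Nat.ble i 1341) e1341 e1342))))) (cond (Nat.ble i 1353) (cond (Nat.ble i 1347) (cond (Nat.ble i 1344) (cond (Nat.ble i 1343) e1343 e1344) (cond (Nat.ble i 1345) e1345 (cond (Nat.ble i 1346) e1346 e1347))) (cond (Nat.ble i 1350) (cond (Nat.ble i 1348) e1348 (cond (Nat.ble i 1349) e1349 e1350)) (cond (Nat.ble i 1351) e1351 (cond (Nat.ble i 1352) e1352 e1353)))) (cond (Nat.ble i 1359) (cond (Nat.ble i 1356) (cond (Nat.ble i 1354) e1354 (cond (Nat.ble i 1355) e1355 e1356)) (cond (Nat.ble i 1357) e1357 (cond (Nat.ble i 1358) e1358 e1359))) (cond (Nat.ble i 1362) (cond (Nat.ble i 1360) e1360 (cond (Nat.ble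 i 1361) e1361 e1362)) (cond (Nat.ble i 1363) e1363 (cond (Nat.ble i 1364) e1364 e1365))))))) (cond (Nat.ble i 1411) (cond (Nat.ble i 1388) (cond (Nat.ble i 1376) (cond (Nat.ble i 1370) (cond (Nat.ble i 1367) (cond (Nat.ble i 1366) e1366 e1367) (cond (Nat.ble i 1368) e1368 (cond (Nat.ble i 1369) e1369 e1370))) (cond (Nat.ble i 1373) (cond (Nat.ble i 1371) e1371 (cond (Nat.ble i 1372) e1372 e1373)) (cond (Nat.ble i 1374) e1374 (cond (Nat.ble i 1375) e1375 e1376)))) (cond (Nat.ble i 1382) (cond (Nat.ble i 1379) (cond (Nat.ble i 1377) e1377 (cond (Nat.ble i 1378) e1378 e1379)) (cond (Nat.ble i 1380) e1380 (cond (Nat.ble i 1381) e1381 e1382))) (cond (Nat.ble i 1385) (cond (Nat.ble i 1383) e1383 (cond (Nat.ble i 1384) e1384 e1385)) (cond (Nat.ble i 1386) e1386 (cond (Nat.ble i 1387) e1387 e1388))))) (cond (Nat.ble i 1399) (cond (Nat.ble i 1393) (cond (Nat.ble i 1390) (cond (Nat.ble i 1389) e1389 e1390) (cond (Nat.ble i 1391) e1391 (cond (Nat.ble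 i 1392) e1392 e1393))) (cond (Nat.ble i 1396) (cond (Nat.ble i 1394) e1394 (cond (Nat.ble i 1395) e1395 e1396)) (cond (Nat.ble i 1397) e1397 (cond (Nat.ble i 1398) e1398 e1399)))) (cond (Nat.ble i 1405) (cond (Nat.ble i 1402) (cond (Nat.ble i 1400) e1400 (cond (Nat.ble i 1401) e1401 e1402)) (cond (Nat.ble i 1403) e1403 (cond (Nat.ble i 1404) e1404 e1405))) (cond (Nat.ble i 1408) (cond (Nat.ble i 1406) e1406 (cond (Nat.ble i 1407) e1407 e1408)) (cond (Nat.ble i 1409) e1409 (cond (Nat.ble i 1410) e1410 e1411)))))) (cond (Nat.ble i 1434) (cond (Nat.ble i 1422) (cond (Nat.ble i 1416) (cond (Nat.ble i 1413) (cond (Nat.ble i 1412) e1412 e1413) (cond (Nat.ble i 1414) e1414 (cond (Nat.ble i 1415) e1415 e1416))) (cond (Nat.ble i 1419) (cond (Nat.ble i 1417) e1417 (cond (Nat.ble i 1418) e1418 e1419)) (cond (Nat.ble i 1420) e1420 (cond (Nat.ble i 1421) e1421 e1422)))) (cond (Nat.ble i 1428) (cond (Nat.ble i 1425) (cond (Nat.ble i 1423) e1423 (cond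 (Nat.ble i 1424) e1424 e1425)) (cond (Nat.ble i 1426) e1426 (cond (Nat.ble i 1427) e1427 e1428))) (cond (Nat.ble i 1431) (cond (Nat.ble i 1429) e1429 (cond (Nat.ble i 1430) e1430 e1431)) (cond (Nat.ble i 1432) e1432 (cond (Nat.ble i 1433) e1433 e1434))))) (cond (Nat.ble i 1445) (cond (Nat.ble i 1439) (cond (Nat.ble i 1436) (cond (Nat.ble i 1435) e1435 e1436) (cond (Nat.ble i 1437) e1437 (cond (Nat.ble i 1438) e1438 e1439))) (cond (Nat.ble i 1442) (cond (Nat.ble i 1440) e1440 (cond (Nat.ble i 1441) e1441 e1442)) (cond (Nat.ble i 1443) e1443 (cond (Nat.ble i 1444) e1444 e1445)))) (cond (Nat.ble i 1451) (cond (Nat.ble i 1448) (cond (Nat.ble i 1446) e1446 (cond (Nat.ble i 1447) e1447 e1448)) (cond (Nat.ble i 1449) e1449 (cond (Nat.ble i 1450) e1450 e1451))) (cond (Nat.ble i 1454) (cond (Nat.ble i 1452) e1452 (cond (Nat.ble i 1453) e1453 e1454)) (cond (Nat.ble i 1455) e1455 (cond (Nat.ble i 1456) e1456 e1457)))))))))))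

/-- the parameters -/
def P : Par :=
  { w := 40, s := 8, j := 9, L := 13, sh := 16, cb := 24, eb := 22,
    A := 18169, B := 49934, C := 94836, q := 16, xb := 27, f := 2, a := 13, sb := 20, F := 262144, a2 := 18, KR := 8774,
    Ks := [(6069, 2159), (7051, 23786), (7600, 78944), (7890, 143726), (8040, 194267), (8116, 225826), (8154, 243351), (8173, 252584), (8182, 257071), (8187, 259596), (8190, 261122), (8191, 261633)] }

/-- the table, by low digits -/
def Ed (b : Nat) : Nat := EdOf P (fun x => Ei (idx9 x)) b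

end

end Pool.Agent.Lib_helper1.C7
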